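import Mathlib

set_option autoImplicit false

/-!
# Completely multiplicative signs
-/

namespace Pool.Agent.Lib.MP192724

/-- completely multiplicative functions on the positive integers with values `±1` -/
structure IsSign (g : ℕ → ℤ) : Prop where
  val : ∀ n, 0 < n → g n = 1 ∨ g n = -1
  mul : ∀ m n, 0 < m → 0 < n → g (m * n) = g m * g n

end Pool.Agent.Lib.MP192724
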